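import Pool.Agent.P.MP_9bbf37_lc.Defs

namespace Pool.Agent.P.MP_9bbf37_lc

open Finset

variable {P : Type} [DecidableEq P]

/-- request `s` exists and is a fault -/
def IsFault (k : ℕ) (A : Alg P) (C : Finset P) (σ : List P) (s : ℕ) : Prop :=
  ∃ r, σ[s]? = some r ∧ r ∉ mem k A C σ s

open Classical in
/-- the fault times before `t` -/
noncomputable def fset (k : ℕ) (A : Alg P) (C : Finset P) (σ : List P) (t : ℕ) : Finset ℕ :=
  (Finset.range t).filter (IsFault k A C σ)

/-- number of faults before `t` -/
noncomputable def flt (k : ℕ) (A : Alg P) (C : Finset P) (σ : List P) (t : ℕ) : ℕ :=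
  (fset k A C σ t).card

variable {k : ℕ} {A B : Alg P} {C : Finset P} {σ : List P}

lemma mem_zero : mem k A C σ 0 = C := rfl

lemma mem_succ_none {t : ℕ} (h : σ[t]? = none) : mem k A C σ (t + 1) = mem k A C σ t := by
  rw [mem]; simp only [h]

lemma mem_succ_hit {t : ℕ} {r : P} (h : σ[t]? = some r) (hr : r ∈ mem k A C σ t) :
    mem k A C σ (t + 1) = mem k A C σ t := by
  rw [mem]; simp only [h, if_pos hr]

lemma mem_succ_fill {t : ℕ} {r : P} (h : σ[t]? = some r) (hr : r ∉ mem k A C σ t)
    (hc : (mem k A C σ t).card < k) :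
    mem k A C σ (t + 1) = insert r (mem k A C σ t) := by
  rw [mem]; simp only [h, if_neg hr, if_pos hc]

lemma mem_succ_evict {t : ℕ} {r : P} (h : σ[t]? = some r) (hr : r ∉ mem k A C σ t)
    (hc : ¬ (mem k A C σ t).card < k) :
    mem k A C σ (t + 1) =
      insert r ((mem k A C σ t).erase (A.evict C σ t (mem k A C σ t))) := by
  rw [mem]; simp only [h, if_neg hr, if_neg hc]

lemma req_mem_succ {t : ℕ} {r : P} (h : σ[t]? = some r) : r ∈ mem k A C σ (t + 1) := by
  by_cases hr : r ∈ mem k A C σ t
  · rw [mem_succ_hit h hr]; exact hr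
  · by_cases hc : (mem k A C σ t).card < k
    · rw [mem_succ_fill h hr hc]; exact mem_insert_self _ _
    · rw [mem_succ_evict h hr hc]; exact mem_insert_self _ _

lemma flt_zero : flt k A C σ 0 = 0 := by simp [flt, fset]

lemma fset_succ_pos {t : ℕ} (h : IsFault k A C σ t) :
    fset k A C σ (t + 1) = insert t (fset k A C σ t) := by
  classical
  unfold fset
  rw [Finset.range_add_one, Finset.filter_insert, if_pos h]

lemma fset_succ_neg {t : ℕ} (h : ¬ IsFault k A C σ t) :
    fset k A C σ (t + 1) = fset k A C σ t := by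
  classical
  unfold fset
  rw [Finset.range_add_one, Finset.filter_insert, if_neg h]

lemma mem_fset {t s : ℕ} : s ∈ fset k A C σ t ↔ s < t ∧ IsFault k A C σ s := by
  classical
  unfold fset
  simp

lemma flt_succ_pos {t : ℕ} (h : IsFault k A C σ t) :
    flt k A C σ (t + 1) = flt k A C σ t + 1 := by
  unfold flt
  rw [fset_succ_pos h, card_insert_of_notMem]
  simp [mem_fset]

lemma flt_succ_neg {t : ℕ} (h : ¬ IsFault k A C σ t) :
    flt k A C σ (t + 1) = flt k A C σ t := by
  unfold flt
  rw [fset_succ_neg h]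

lemma isFault_iff {t : ℕ} {r : P} (h : σ[t]? = some r) :
    IsFault k A C σ t ↔ r ∉ mem k A C σ t := by
  constructor
  · rintro ⟨r', h1, h2⟩
    rw [h] at h1
    cases h1
    exact h2
  · intro h2
    exact ⟨r, h, h2⟩

lemma not_isFault_none {t : ℕ} (h : σ[t]? = none) : ¬ IsFault k A C σ t := by
  rintro ⟨r', h1, _⟩
  rw [h] at h1
  cases h1

lemma flt_hit {t : ℕ} {r : P} (h : σ[t]? = some r) (hr : r ∈ mem k A C σ t) :
    flt k A C σ (t + 1) = flt k A C σ t :=
  flt_succ_neg (by rw [isFault_iff h]; exact not_not.mpr hr)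

lemma flt_miss {t : ℕ} {r : P} (h : σ[t]? = some r) (hr : r ∉ mem k A C σ t) :
    flt k A C σ (t + 1) = flt k A C σ t + 1 :=
  flt_succ_pos (by rw [isFault_iff h]; exact hr)

lemma flt_none {t : ℕ} (h : σ[t]? = none) :
    flt k A C σ (t + 1) = flt k A C σ t :=
  flt_succ_neg (not_isFault_none h)

lemma cost_eq_flt : cost k A C σ = flt k A C σ σ.length := by
  classical
  unfold cost flt
  apply Finset.card_bij (fun (t : Fin σ.length) _ => (t : ℕ))
  · intro t ht
    rw [mem_fset]
    refine ⟨t.2, σ.get t, by simp, ?_⟩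
    simpa using ht
  · intro a _ b _ hab
    exact Fin.ext hab
  · intro s hs
    rw [mem_fset] at hs
    obtain ⟨h1, r, h2, h3⟩ := hs
    refine ⟨⟨s, h1⟩, ?_, rfl⟩
    have : σ.get ⟨s, h1⟩ = r := by
      simp only [List.get_eq_getElem]
      rw [List.getElem?_eq_getElem h1] at h2
      exact Option.some.inj h2
    simp only [mem_filter, mem_univ, true_and]
    rw [this]; exact h3

lemma card_mem_le (hk : 1 ≤ k) (hC : C.card ≤ k) (t : ℕ) : (mem k A C σ t).card ≤ k := by
  induction t with
  | zero => exact hC
  | succ t ih =>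
    cases h : σ[t]? with
    | none => rw [mem_succ_none h]; exact ih
    | some r =>
      by_cases hr : r ∈ mem k A C σ t
      · rw [mem_succ_hit h hr]; exact ih
      · by_cases hc : (mem k A C σ t).card < k
        · rw [mem_succ_fill h hr hc, card_insert_of_notMem hr]; omega
        · rw [mem_succ_evict h hr hc]
          have hne : (mem k A C σ t).Nonempty := by
            rw [← card_pos]; omega
          have he := A.evict_mem C σ t _ hne
          rw [card_insert_of_notMem (fun hh => hr (mem_of_mem_erase hh)), card_erase_of_mem he]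
          omega

lemma card_evict (hk : 1 ≤ k) (hC : C.card ≤ k) {t : ℕ} {r : P} (h : σ[t]? = some r)
    (hr : r ∉ mem k A C σ t) (hc : ¬ (mem k A C σ t).card < k) :
    (mem k A C σ (t + 1)).card = k := by
  have ih := card_mem_le (A := A) (σ := σ) hk hC t
  rw [mem_succ_evict h hr hc]
  have hne : (mem k A C σ t).Nonempty := by
    rw [← card_pos]; omega
  have he := A.evict_mem C σ t _ hne
  rw [card_insert_of_notMem (fun hh => hr (mem_of_mem_erase hh)), card_erase_of_mem he]
  omega

/-- Two algorithms are either both full or hold the same pages. -/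
lemma full_or_eq (hk : 1 ≤ k) (hC : C.card ≤ k) (t : ℕ) :
    ((mem k A C σ t).card = k ∧ (mem k B C σ t).card = k) ∨
      mem k A C σ t = mem k B C σ t := by
  induction t with
  | zero => right; rfl
  | succ t ih =>
    have hA := card_mem_le (A := A) (σ := σ) hk hC t
    have hB := card_mem_le (A := B) (σ := σ) hk hC t
    cases h : σ[t]? with
    | none => rw [mem_succ_none h, mem_succ_none h]; exact ih
    | some r =>
      rcases ih with ⟨h1, h2⟩ | h1
      · left
        constructor
        · by_cases hr : r ∈ mem k A C σ t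
          · rw [mem_succ_hit h hr]; exact h1
          · exact card_evict hk hC h hr (by omega)
        · by_cases hr : r ∈ mem k B C σ t
          · rw [mem_succ_hit h hr]; exact h2
          · exact card_evict hk hC h hr (by omega)
      · by_cases hr : r ∈ mem k A C σ t
        · right
          rw [mem_succ_hit h hr, mem_succ_hit h (h1 ▸ hr)]; exact h1
        · by_cases hc : (mem k A C σ t).card < k
          · right
            rw [mem_succ_fill h hr hc, mem_succ_fill h (h1 ▸ hr) (h1 ▸ hc), h1]
          · left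
            exact ⟨card_evict hk hC h hr hc, card_evict hk hC h (h1 ▸ hr) (h1 ▸ hc)⟩

omit [DecidableEq P] in
lemma getElem?_eq_of_take_eq {σ σ' : List P} {n s : ℕ} (h : σ.take n = σ'.take n) (hs : s < n) :
    σ[s]? = σ'[s]? := by
  have h1 : (σ.take n)[s]? = σ[s]? := List.getElem?_take_of_lt hs
  have h2 : (σ'.take n)[s]? = σ'[s]? := List.getElem?_take_of_lt hs
  rw [← h1, ← h2, h]

omit [DecidableEq P] in
lemma take_eq_of_take_eq {σ σ' : List P} {n m : ℕ} (h : σ.take n = σ'.take n) (hm : m ≤ n) :
    σ.take m = σ'.take m := by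
  have h1 : (σ.take n).take m = σ.take m := by rw [List.take_take, min_eq_left hm]
  have h2 : (σ'.take n).take m = σ'.take m := by rw [List.take_take, min_eq_left hm]
  rw [← h1, ← h2, h]

/-- locality of the memory of an algorithm with lookahead `i` -/
lemma mem_local {i : ℕ} (hA : A ∈ Look P i) {σ σ' : List P} (t : ℕ)
    (h : σ.take (t + i) = σ'.take (t + i)) : mem k A C σ t = mem k A C σ' t := by
  induction t with
  | zero => rfl
  | succ t ih =>
    have ih' := ih (take_eq_of_take_eq h (by omega))
    have hg : σ[t]? = σ'[t]? := getElem?_eq_of_take_eq h (by omega)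
    have he : ∀ M, A.evict C σ t M = A.evict C σ' t M := fun M => hA C σ σ' t M h
    rw [mem, mem, hg, ih', he]

omit [DecidableEq P] in
lemma look_mono {i j : ℕ} (hij : i ≤ j) (hA : A ∈ Look P i) : A ∈ Look P j :=
  fun C σ σ' t M h => hA C σ σ' t M (take_eq_of_take_eq h (by omega))

end Pool.Agent.P.MP_9bbf37_lc
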