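import Mathlib

namespace Pool.Agent.P.MP_9bbf37_lc

/-- A deterministic (demand) paging algorithm over the page universe `P`, possibly off-line.
`evict C σ t M` is the page it evicts when the memory started as `C`, the whole request
sequence is `σ`, and request number `t` (counted from `0`) is a fault on the full memory `M`. -/
structure Alg (P : Type) where
  evict : Finset P → List P → ℕ → Finset P → P
  evict_mem : ∀ C σ t M, M.Nonempty → evict C σ t M ∈ M

/-- Contents of the fast memory (size `k`) of `A` after the first `t` requests of `σ`,
starting from `C`. -/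
def mem {P : Type} [DecidableEq P] (k : ℕ) (A : Alg P) (C : Finset P) (σ : List P) :
    ℕ → Finset P
  | 0 => C
  | t + 1 =>
    match σ[t]? with
    | none => mem k A C σ t
    | some r =>
      if r ∈ mem k A C σ t then mem k A C σ t
      else if (mem k A C σ t).card < k then insert r (mem k A C σ t)
      else insert r ((mem k A C σ t).erase (A.evict C σ t (mem k A C σ t)))

/-- Number of faults of `A` on `σ` from the initial memory `C`. -/
def cost {P : Type} [DecidableEq P] (k : ℕ) (A : Alg P) (C : Finset P) (σ : List P) : ℕ :=
  (Finset.univ.filter fun t : Fin σ.length => σ.get t ∉ mem k A C σ t).card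

/-- The class of algorithms with lookahead `i`: the decision at request `t` depends only on the
requests `0, …, t + i`. -/
def Look (P : Type) (i : ℕ) : Set (Alg P) :=
  {A | ∀ C σ σ' t M, σ.take (t + 1 + i) = σ'.take (t + 1 + i) →
    A.evict C σ t M = A.evict C σ' t M}

/-- `r(A,B)`: infimum of all real `c` such that, for some constant `b`,
`cost A ≤ c * cost B + b` on every request sequence, both algorithms starting from the same
memory `C`, which ranges over the allowed initial contents `I`. -/
noncomputable def ratio {P : Type} [DecidableEq P] (k : ℕ) (I : Set (Finset P))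
    (A B : Alg P) : EReal :=
  sInf ((fun c : ℝ => (c : EReal)) ''
    {c | ∃ b : ℝ, ∀ C ∈ I, ∀ σ : List P, (cost k A C σ : ℝ) ≤ c * (cost k B C σ : ℝ) + b})

/-- The comparative ratio `c(𝒜, ℬ) = sup_B inf_A r(A,B)`. -/
noncomputable def compRatio {P : Type} [DecidableEq P] (k : ℕ) (I : Set (Finset P))
    (𝒜 ℬ : Set (Alg P)) : EReal :=
  ⨆ B ∈ ℬ, ⨅ A ∈ 𝒜, ratio k I A B

end Pool.Agent.P.MP_9bbf37_lc
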