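import Pool.Agent.P.MP_9bbf37_lc.Basic

namespace Pool.Agent.P.MP_9bbf37_lc

open Finset

variable {P : Type} [DecidableEq P]

/-- `x` is requested at a time in `[t, t + i)` -/
def Vis (σ : List P) (i t : ℕ) (x : P) : Prop :=
  ∃ v, t ≤ v ∧ v < t + i ∧ σ[v]? = some x

/-- `x` is requested at a time in `[t, t + i)`, before any request to `p` from time `t` on -/
def Bef (σ : List P) (i t : ℕ) (x p : P) : Prop :=
  ∃ v, t ≤ v ∧ v < t + i ∧ σ[v]? = some x ∧ ∀ v', t ≤ v' → v' ≤ v → σ[v']? ≠ some p

omit [DecidableEq P] in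
lemma Bef.succ {σ : List P} {i t : ℕ} {x p r : P} (h : Bef σ i t x p) (hr : σ[t]? = some r)
    (hx : x ≠ r) : Bef σ i (t + 1) x p := by
  obtain ⟨v, h1, h2, h3, h4⟩ := h
  have hv : v ≠ t := by
    rintro rfl
    rw [hr] at h3
    exact hx (Option.some.inj h3).symm
  exact ⟨v, by omega, by omega, h3, fun v' h5 h6 => h4 v' (by omega) h6⟩

omit [DecidableEq P] in
lemma Bef.ne {σ : List P} {i t : ℕ} {x p r : P} (h : Bef σ i t x p) (hr : σ[t]? = some r) :
    p ≠ r := by
  obtain ⟨v, h1, -, -, h4⟩ := h
  rintro rfl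
  exact h4 t le_rfl h1 hr

omit [DecidableEq P] in
lemma Bef.vis {σ : List P} {i t : ℕ} {x p : P} (h : Bef σ i t x p) : Vis σ i t x := by
  obtain ⟨v, h1, h2, h3, -⟩ := h
  exact ⟨v, h1, h2, h3⟩

omit [DecidableEq P] in
lemma Bef.trans {σ : List P} {i t : ℕ} {x y z : P} (h : Bef σ i t x y) (h' : Bef σ i t y z) :
    Bef σ i t x z := by
  obtain ⟨v, h1, h2, h3, h4⟩ := h
  obtain ⟨w, g1, g2, g3, g4⟩ := h'
  have hvw : v < w := by
    by_contra hcon
    exact h4 w g1 (by omega) g3
  exact ⟨v, h1, h2, h3, fun v' h5 h6 => g4 v' h5 (by omega)⟩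

omit [DecidableEq P] in
lemma Vis.bef {σ : List P} {i t : ℕ} {x p : P} (h : Vis σ i t x) (hp : ¬ Vis σ i t p) :
    Bef σ i t x p := by
  obtain ⟨v, h1, h2, h3⟩ := h
  exact ⟨v, h1, h2, h3, fun v' h5 h6 h7 => hp ⟨v', h5, by omega, h7⟩⟩

/-- the accounting invariant -/
def Inv (σ : List P) (i : ℕ) (W : ℕ → ℕ) (t : ℕ) (A B : Finset P) (cA cB : ℕ) : Prop :=
  ∃ (T : Finset ℕ) (O : Finset P) (f : P → P) (h : ℕ → P) (N : ℕ),
    cA ≤ N + T.card ∧
    N + ((B \ A) \ O).card ≤ cB ∧
    O ⊆ B \ A ∧ Set.InjOn f O ∧ (∀ p ∈ O, f p ∈ A \ B ∧ Bef σ i t (f p) p) ∧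
    (∀ u ∈ T, u < t) ∧
    (∀ u ∈ T, (T.filter (fun u' => u ≤ u' + i ∧ u' ≤ u)).card ≤ W u) ∧
    (∀ u ∈ T, t ≤ u + i → h u ∈ (B \ A) \ O ∧
      ∀ v, t ≤ v → v ≤ u + i → σ[v]? ≠ some (h u)) ∧
    (∀ u ∈ T, ∀ u' ∈ T, t ≤ u + i → t ≤ u' + i → h u = h u' → u = u')

variable {σ : List P} {i : ℕ} {W : ℕ → ℕ} {t : ℕ} {A B : Finset P} {cA cB : ℕ}

lemma inv_zero (p0 : P) (C : Finset P) : Inv σ i W 0 C C 0 0 :=
  ⟨∅, ∅, id, fun _ => p0, 0, by simp, by simp, by simp, by simp, by simp, by simp, by simp,
    by simp, by simp⟩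

lemma inv_fill {r : P} (H : Inv σ i W t A A cA cB) :
    Inv σ i W (t + 1) (insert r A) (insert r A) (cA + 1) (cB + 1) := by
  obtain ⟨T, O, f, h, N, h1, h2, h3, h4, h5, h6, h7, h8, h9⟩ := H
  refine ⟨T, ∅, f, h, N + 1, by omega, ?_, by simp, by simp, by simp,
    fun u hu => by have := h6 u hu; omega, h7, ?_, ?_⟩
  · simp at h2 ⊢; omega
  · intro u hu hle
    have := (h8 u hu (by omega)).1
    simp at this
  · intro u hu u' hu' h10 h11
    exact h9 u hu u' hu' (by omega) (by omega)

lemma inv_hit {r : P} (H : Inv σ i W t A B cA cB) (hr : σ[t]? = some r) (hB : r ∈ B) :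
    Inv σ i W (t + 1) A B cA cB := by
  obtain ⟨T, O, f, h, N, h1, h2, h3, h4, h5, h6, h7, h8, h9⟩ := H
  refine ⟨T, O, f, h, N, h1, h2, h3, h4, ?_, fun u hu => by have := h6 u hu; omega, h7, ?_, ?_⟩
  · intro p hp
    obtain ⟨g1, g2⟩ := h5 p hp
    refine ⟨g1, g2.succ hr ?_⟩
    intro he
    rw [he, mem_sdiff] at g1
    exact g1.2 hB
  · intro u hu hle
    obtain ⟨g1, g2⟩ := h8 u hu (by omega)
    exact ⟨g1, fun v hv1 hv2 => g2 v (by omega) hv2⟩
  · intro u hu u' hu' h10 h11
    exact h9 u hu u' hu' (by omega) (by omega)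

lemma inv_B {r e : P} (H : Inv σ i W t A B cA cB) :
    Inv σ i W t A (insert r (B.erase e)) cA (cB + 1) := by
  obtain ⟨T, O, f, h, N, h1, h2, h3, h4, h5, h6, h7, h8, h9⟩ := H
  set O' := O.filter (fun p => p ≠ e ∧ f p ≠ r) with hO'
  set T' := T.filter (fun u => ¬ (t ≤ u + i ∧ h u = e)) with hT'
  set R := T.filter (fun u => t ≤ u + i ∧ h u = e) with hR
  have hTR : R.card + T'.card = T.card := card_filter_add_card_filter_not _
  have hO'O : O' ⊆ O := filter_subset _ _
  have hT'T : T' ⊆ T := filter_subset _ _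
  have hRcard : R.card + (((B \ A) \ O).erase e).card ≤ ((B \ A) \ O).card := by
    by_cases he : e ∈ (B \ A) \ O
    · have hR1 : R.card ≤ 1 := by
        rw [card_le_one]
        intro u hu u' hu'
        rw [hR, mem_filter] at hu hu'
        exact h9 u hu.1 u' hu'.1 hu.2.1 hu'.2.1 (hu.2.2.trans hu'.2.2.symm)
      have := card_erase_add_one he
      omega
    · have hR0 : R = ∅ := by
        rw [eq_empty_iff_forall_notMem]
        intro u hu
        rw [hR, mem_filter] at hu
        exact he (hu.2.2 ▸ (h8 u hu.1 hu.2.1).1)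
      rw [hR0, erase_eq_of_notMem he]; simp
  have hY : (((insert r (B.erase e)) \ A) \ O').card ≤ (((B \ A) \ O).erase e).card + 1 := by
    by_cases hrA : r ∈ A
    · have hsub : ((insert r (B.erase e)) \ A) \ O' ⊆
          (((B \ A) \ O).erase e) ∪ O.filter (fun p => f p = r) := by
        intro p hp
        simp only [hO', mem_sdiff, mem_insert, mem_erase, mem_filter, mem_union, not_and,
          not_not, ne_eq] at hp ⊢
        obtain ⟨⟨g1, g2⟩, g3⟩ := hp
        rcases g1 with g1 | g1
        · exact absurd (g1 ▸ hrA) g2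
        · by_cases hpO : p ∈ O
          · right; exact ⟨hpO, g3 hpO g1.1⟩
          · left; exact ⟨g1.1, ⟨g1.2, g2⟩, hpO⟩
      have hone : (O.filter (fun p => f p = r)).card ≤ 1 := by
        rw [card_le_one]
        intro p hp p' hp'
        rw [mem_filter] at hp hp'
        exact h4 hp.1 hp'.1 (hp.2.trans hp'.2.symm)
      have := (card_le_card hsub).trans (card_union_le _ _)
      omega
    · have hsub : ((insert r (B.erase e)) \ A) \ O' ⊆ insert r (((B \ A) \ O).erase e) := by
        intro p hp
        simp only [hO', mem_sdiff, mem_insert, mem_erase, mem_filter, not_and,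
          not_not, ne_eq] at hp ⊢
        obtain ⟨⟨g1, g2⟩, g3⟩ := hp
        rcases g1 with g1 | g1
        · left; exact g1
        · right
          refine ⟨g1.1, ⟨g1.2, g2⟩, fun hpO => ?_⟩
          have g4 := g3 hpO g1.1
          have g5 := (h5 p hpO).1
          rw [g4, mem_sdiff] at g5
          exact hrA g5.1
      exact (card_le_card hsub).trans (card_insert_le _ _)
  refine ⟨T', O', f, h, N + R.card, by omega, by omega, ?_, h4.mono (by exact_mod_cast hO'O), ?_,
    fun u hu => h6 u (hT'T hu), ?_, ?_, ?_⟩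
  · intro p hp
    have g1 := h3 (hO'O hp)
    rw [hO', mem_filter] at hp
    rw [mem_sdiff] at g1 ⊢
    exact ⟨mem_insert_of_mem (mem_erase.mpr ⟨hp.2.1, g1.1⟩), g1.2⟩
  · intro p hp
    obtain ⟨g1, g2⟩ := h5 p (hO'O hp)
    rw [hO', mem_filter] at hp
    refine ⟨?_, g2⟩
    rw [mem_sdiff] at g1 ⊢
    refine ⟨g1.1, fun g3 => ?_⟩
    rcases mem_insert.mp g3 with g3 | g3
    · exact hp.2.2 g3
    · exact g1.2 (mem_of_mem_erase g3)
  · intro u hu
    exact (card_le_card (filter_subset_filter _ hT'T)).trans (h7 u (hT'T hu))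
  · intro u hu hle
    obtain ⟨g1, g2⟩ := h8 u (hT'T hu) hle
    rw [hT', mem_filter] at hu
    refine ⟨?_, g2⟩
    simp only [mem_sdiff] at g1 ⊢
    refine ⟨⟨mem_insert_of_mem (mem_erase.mpr ⟨fun g3 => hu.2 ⟨hle, g3⟩, g1.1.1⟩), g1.1.2⟩,
      fun g3 => g1.2 (hO'O g3)⟩
  · intro u hu u' hu'
    exact h9 u (hT'T hu) u' (hT'T hu')

lemma exists_free {A B O : Finset P} (f : P → P) (hAB : A.card = B.card) {S : Finset P}
    (hS : S ⊆ B \ A) (hlt : O.card < S.card) : ∃ z ∈ A \ B, z ∉ O.image f := by
  by_contra hcon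
  push Not at hcon
  have h1 := card_le_card (show A \ B ⊆ O.image f from hcon)
  have h2 : (O.image f).card ≤ O.card := card_image_le
  have h3 := card_le_card hS
  have h4 : (A \ B).card = (B \ A).card := card_sdiff_comm hAB
  omega

lemma inv_A {r a : P} {K : Finset P} (H : Inv σ i W t A B cA cB) (hr : σ[t]? = some r)
    (hB : r ∈ B) (hA : r ∉ A) (ha : a ∈ A) (hAB : A.card = B.card)
    (P1 : ∀ z ∈ A, z ≠ a → Vis σ i (t + 1) a → Bef σ i (t + 1) z a)
    (P2 : a ∈ K → ∀ z ∈ A, z ∉ K → Vis σ i (t + 1) z)
    (hBK : B ⊆ K) (hKW : (K \ B).card ≤ W t) :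
    Inv σ i W (t + 1) (insert r (A.erase a)) B (cA + 1) cB := by
  obtain ⟨T, O, f, h, N, h1, h2, h3, h4, h5, h6, h7, h8, h9⟩ := H
  set A' := insert r (A.erase a) with hA'
  have hA'card : A'.card = B.card := by
    rw [hA', card_insert_of_notMem (fun hh => hA (mem_of_mem_erase hh)), card_erase_of_mem ha]
    have : 0 < A.card := card_pos.mpr ⟨a, ha⟩
    omega
  have hrO : r ∉ O := fun hh => (h5 r hh).2.ne hr rfl
  have hrY : r ∈ (B \ A) \ O := by
    simp only [mem_sdiff]; exact ⟨⟨hB, hA⟩, hrO⟩
  have h5' : ∀ p ∈ O, Bef σ i (t + 1) (f p) p := by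
    intro p hp
    obtain ⟨g1, g2⟩ := h5 p hp
    refine g2.succ hr ?_
    intro he
    rw [he, mem_sdiff] at g1
    exact g1.2 hB
  have hOY' : O ⊆ B \ A' := by
    intro p hp
    have g1 := h3 hp
    rw [mem_sdiff] at g1 ⊢
    refine ⟨g1.1, fun g2 => ?_⟩
    rcases mem_insert.mp g2 with g2 | g2
    · exact hrO (g2 ▸ hp)
    · exact g1.2 (mem_of_mem_erase g2)
  have hX' : ∀ z, z ∈ A' \ B ↔ z ∈ A \ B ∧ z ≠ a := by
    intro z
    simp only [hA', mem_sdiff, mem_insert, mem_erase]
    constructor
    · rintro ⟨g1 | g1, g2⟩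
      · exact absurd (g1 ▸ hB) g2
      · exact ⟨⟨g1.2, g2⟩, g1.1⟩
    · rintro ⟨⟨g1, g2⟩, g3⟩
      exact ⟨Or.inr ⟨g3, g1⟩, g2⟩
  have h8' : ∀ u ∈ T, t ≤ u + i → h u ∈ (((B \ A) \ O).erase r) := by
    intro u hu hle
    obtain ⟨g1, g2⟩ := h8 u hu hle
    rw [mem_erase]
    refine ⟨fun he => g2 t le_rfl hle (he ▸ hr), g1⟩
  have hcardr := card_erase_add_one hrY
  by_cases haB : a ∈ B
  · -- the evicted page is in the memory of `B`
    have haO : a ∉ O := fun hh => (mem_sdiff.mp (h3 hh)).2 ha
    have haY' : a ∈ B \ A' := by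
      rw [mem_sdiff]
      refine ⟨haB, fun g => ?_⟩
      rcases mem_insert.mp g with g | g
      · exact hA (g ▸ ha)
      · exact (notMem_erase a A) g
    have hX'' : ∀ z, z ∈ A' \ B ↔ z ∈ A \ B := by
      intro z
      rw [hX']
      exact ⟨fun g => g.1, fun g => ⟨g, fun he => (mem_sdiff.mp g).2 (he ▸ haB)⟩⟩
    have hYeq : (B \ A') \ O = insert a (((B \ A) \ O).erase r) := by
      ext p
      simp only [hA', mem_sdiff, mem_insert, mem_erase, not_or, not_and, ne_eq]
      constructor
      · rintro ⟨⟨g1, g2, g3⟩, g4⟩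
        by_cases hpa : p = a
        · left; exact hpa
        · right; exact ⟨g2, ⟨g1, g3 hpa⟩, g4⟩
      · rintro (g | ⟨g1, ⟨g2, g3⟩, g4⟩)
        · subst g
          exact ⟨⟨haB, fun he => hA (he ▸ ha), fun g => absurd rfl g⟩, haO⟩
        · exact ⟨⟨g2, g1, fun _ => g3⟩, g4⟩
    have haer : a ∉ ((B \ A) \ O).erase r := by
      simp only [mem_erase, mem_sdiff, not_and, not_not]
      intro _ g; exact absurd ha g.2
    by_cases hm : ∃ x ∈ A \ B, x ∉ O.image f ∧ Bef σ i (t + 1) x a
    · -- matched
      obtain ⟨x, hx1, hx2, hx3⟩ := hm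
      refine ⟨T, insert a O, Function.update f a x, h, N + 1, by omega, ?_,
        insert_subset haY' hOY', ?_, ?_, fun u hu => by have := h6 u hu; omega, h7, ?_, ?_⟩
      · have : (B \ A') \ insert a O = ((B \ A) \ O).erase r := by
          rw [sdiff_insert, hYeq, erase_insert haer]
        rw [this]; omega
      · intro p hp p' hp' he
        rw [mem_coe, mem_insert] at hp hp'
        rcases hp with hp | hp <;> rcases hp' with hp' | hp'
        · rw [hp, hp']
        · have hne : p' ≠ a := fun g => haO (g ▸ hp')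
          rw [hp, Function.update_self, Function.update_of_ne hne] at he
          exact absurd (mem_image.mpr ⟨p', hp', he.symm⟩) hx2
        · have hne : p ≠ a := fun g => haO (g ▸ hp)
          rw [hp', Function.update_self, Function.update_of_ne hne] at he
          exact absurd (mem_image.mpr ⟨p, hp, he⟩) hx2
        · have hne : p ≠ a := fun g => haO (g ▸ hp)
          have hne' : p' ≠ a := fun g => haO (g ▸ hp')
          rw [Function.update_of_ne hne, Function.update_of_ne hne'] at he
          exact h4 hp hp' he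
      · intro p hp
        rcases mem_insert.mp hp with hp | hp
        · rw [hp, Function.update_self]
          exact ⟨(hX'' x).mpr hx1, hx3⟩
        · have hne : p ≠ a := fun g => haO (g ▸ hp)
          rw [Function.update_of_ne hne]
          exact ⟨(hX'' _).mpr (h5 p hp).1, h5' p hp⟩
      · intro u hu hle
        refine ⟨?_, fun v hv1 hv2 => (h8 u hu (by omega)).2 v (by omega) hv2⟩
        rw [sdiff_insert, hYeq, erase_insert haer]
        exact h8' u hu (by omega)
      · intro u hu u' hu' h10 h11
        exact h9 u hu u' hu' (by omega) (by omega)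
    · -- unmatched
      push Not at hm
      have hnv : ¬ Vis σ i (t + 1) a := by
        intro hv
        obtain ⟨z, hz1, hz2⟩ := exists_free (O := O) f hA'card (insert_subset haY' hOY')
          (by rw [card_insert_of_notMem haO]; omega)
        have hz3 := (hX' z).mp hz1
        exact hm z hz3.1 hz2 (P1 z (mem_sdiff.mp hz3.1).1 hz3.2 hv)
      have hsubK : (A \ B) \ O.image f ⊆ K \ B := by
        intro z hz
        rw [mem_sdiff] at hz
        obtain ⟨hz1, hz2⟩ := hz
        have hzK : z ∈ K := by
          by_contra hzK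
          exact hm z hz1 hz2 ((P2 (hBK haB) z (mem_sdiff.mp hz1).1 hzK).bef hnv)
        exact mem_sdiff.mpr ⟨hzK, (mem_sdiff.mp hz1).2⟩
      have hcount : ((B \ A) \ O).card ≤ W t := by
        have g1 := card_le_card hsubK
        have g2 : (A \ B).card ≤ ((A \ B) \ O.image f).card + (O.image f).card :=
          card_le_card_sdiff_add_card
        have g3 : (O.image f).card ≤ O.card := card_image_le
        have g4 : ((B \ A) \ O).card + O.card = (B \ A).card := card_sdiff_add_card_eq_card h3
        have g5 : (A \ B).card = (B \ A).card := card_sdiff_comm hAB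
        omega
      have htT : t ∉ T := fun g => absurd (h6 t g) (lt_irrefl t)
      refine ⟨insert t T, O, f, Function.update h t a, N, ?_, ?_, hOY', h4, ?_, ?_, ?_, ?_, ?_⟩
      · rw [card_insert_of_notMem htT]; omega
      · rw [hYeq, card_insert_of_notMem haer]; omega
      · intro p hp
        exact ⟨(hX'' _).mpr (h5 p hp).1, h5' p hp⟩
      · intro u hu
        rcases mem_insert.mp hu with hu | hu
        · omega
        · have := h6 u hu; omega
      · intro u hu
        rcases mem_insert.mp hu with hu | hu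
        · subst hu
          have g1 : ((insert u T).filter (fun u' => u ≤ u' + i ∧ u' ≤ u)) ⊆
              insert u (T.filter (fun u' => u ≤ u' + i)) := by
            intro u' hu'
            simp only [mem_filter, mem_insert] at hu' ⊢
            tauto
          have g2 : (T.filter (fun u' => u ≤ u' + i)).card ≤ (((B \ A) \ O).erase r).card := by
            apply card_le_card_of_injOn h
            · intro u' hu'
              rw [mem_coe, mem_filter] at hu'
              exact h8' u' hu'.1 hu'.2
            · intro u1 hu1 u2 hu2 he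
              rw [mem_coe, mem_filter] at hu1 hu2
              exact h9 u1 hu1.1 u2 hu2.1 hu1.2 hu2.2 he
          have g3 := (card_le_card g1).trans (card_insert_le _ _)
          omega
        · have hut := h6 u hu
          rw [filter_insert, if_neg (by omega)]
          exact h7 u hu
      · intro u hu hle
        rcases mem_insert.mp hu with hu | hu
        · subst hu
          rw [Function.update_self, hYeq]
          exact ⟨mem_insert_self _ _, fun v hv1 hv2 hv3 => hnv ⟨v, hv1, by omega, hv3⟩⟩
        · have hut := h6 u hu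
          rw [Function.update_of_ne (by omega), hYeq]
          exact ⟨mem_insert_of_mem (h8' u hu (by omega)),
            fun v hv1 hv2 => (h8 u hu (by omega)).2 v (by omega) hv2⟩
      · intro u hu u' hu' h10 h11 he
        rcases mem_insert.mp hu with hu | hu <;> rcases mem_insert.mp hu' with hu' | hu'
        · rw [hu, hu']
        · have hut := h6 u' hu'
          rw [hu, Function.update_self, Function.update_of_ne (by omega)] at he
          exact absurd (he ▸ h8' u' hu' (by omega)) haer
        · have hut := h6 u hu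
          rw [hu', Function.update_self, Function.update_of_ne (by omega)] at he
          exact absurd (he ▸ h8' u hu (by omega)) haer
        · have hut := h6 u hu
          have hut' := h6 u' hu'
          rw [Function.update_of_ne (by omega), Function.update_of_ne (by omega)] at he
          exact h9 u hu u' hu' (by omega) (by omega) he
  · -- the evicted page is not in the memory of `B`
    have hYeq : (B \ A') \ O = ((B \ A) \ O).erase r := by
      ext p
      simp only [hA', mem_sdiff, mem_insert, mem_erase, not_or, not_and, ne_eq]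
      constructor
      · rintro ⟨⟨g1, g2, g3⟩, g4⟩
        exact ⟨g2, ⟨g1, g3 (fun he => haB (he ▸ g1))⟩, g4⟩
      · rintro ⟨g1, ⟨g2, g3⟩, g4⟩
        exact ⟨⟨g2, g1, fun _ => g3⟩, g4⟩
    have hf' : ∃ f' : P → P, Set.InjOn f' O ∧
        ∀ p ∈ O, f' p ∈ A' \ B ∧ Bef σ i (t + 1) (f' p) p := by
      by_cases hex : ∃ p ∈ O, f p = a
      · obtain ⟨p, hp, hpa⟩ := hex
        obtain ⟨z, hz1, hz2⟩ := exists_free (O := O.erase p) f hA'card hOY'
          (card_erase_lt_of_mem hp)
        have hz3 := (hX' z).mp hz1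
        have hb := h5' p hp
        rw [hpa] at hb
        have hzb := (P1 z (mem_sdiff.mp hz3.1).1 hz3.2 hb.vis).trans hb
        refine ⟨Function.update f p z, ?_, ?_⟩
        · intro p1 hp1 p2 hp2 he
          rw [mem_coe] at hp1 hp2
          by_cases e1 : p1 = p <;> by_cases e2 : p2 = p
          · rw [e1, e2]
          · rw [e1, Function.update_self, Function.update_of_ne e2] at he
            exact absurd (mem_image.mpr ⟨p2, mem_erase.mpr ⟨e2, hp2⟩, he.symm⟩) hz2
          · rw [e2, Function.update_self, Function.update_of_ne e1] at he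
            exact absurd (mem_image.mpr ⟨p1, mem_erase.mpr ⟨e1, hp1⟩, he⟩) hz2
          · rw [Function.update_of_ne e1, Function.update_of_ne e2] at he
            exact h4 hp1 hp2 he
        · intro p1 hp1
          by_cases e1 : p1 = p
          · rw [e1, Function.update_self]
            exact ⟨hz1, hzb⟩
          · rw [Function.update_of_ne e1]
            refine ⟨(hX' _).mpr ⟨(h5 p1 hp1).1, fun he => e1 ?_⟩, h5' p1 hp1⟩
            exact h4 hp1 hp (he.trans hpa.symm)
      · push Not at hex
        exact ⟨f, h4, fun p hp => ⟨(hX' _).mpr ⟨(h5 p hp).1, hex p hp⟩, h5' p hp⟩⟩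
    obtain ⟨f', hf1, hf2⟩ := hf'
    refine ⟨T, O, f', h, N + 1, by omega, by rw [hYeq]; omega, hOY', hf1, hf2,
      fun u hu => by have := h6 u hu; omega, h7, ?_, ?_⟩
    · intro u hu hle
      rw [hYeq]
      exact ⟨h8' u hu (by omega), fun v hv1 hv2 => (h8 u hu (by omega)).2 v (by omega) hv2⟩
    · intro u hu u' hu' h10 h11
      exact h9 u hu u' hu' (by omega) (by omega)

/-- the window counting lemma -/
lemma window_count (T F : Finset ℕ) (i d : ℕ)
    (h : ∀ u ∈ T, (T.filter (fun u' => u ≤ u' + i ∧ u' ≤ u)).card ≤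
      (F.filter (fun s => u < s + d ∧ s ≤ u)).card) :
    T.card ≤ (d + i) / (i + 1) * F.card := by
  have key : ∀ n : ℕ, (T.filter (fun u => u < n)).card ≤
      ∑ s ∈ F, (min (n - s) d + i) / (i + 1) := by
    intro n
    induction n using Nat.strong_induction_on with
    | _ n ih =>
      cases n with
      | zero => simp
      | succ n =>
        by_cases hn : n ∈ T
        · have g1 : T.filter (fun u => u < n + 1) ⊆ T.filter (fun u => u < n - i) ∪
              T.filter (fun u' => n ≤ u' + i ∧ u' ≤ n) := by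
            intro u hu
            simp only [mem_filter, mem_union] at hu ⊢
            by_cases g : u < n - i
            · left; exact ⟨hu.1, g⟩
            · right; exact ⟨hu.1, by omega, by omega⟩
          have g2 := (card_le_card g1).trans (card_union_le _ _)
          have g3 := ih (n - i) (by omega)
          have g4 := h n hn
          rw [card_filter _ F] at g4
          have g5 : ∑ s ∈ F, (min (n - i - s) d + i) / (i + 1) +
              ∑ s ∈ F, (if n < s + d ∧ s ≤ n then 1 else 0) ≤
              ∑ s ∈ F, (min (n + 1 - s) d + i) / (i + 1) := by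
            rw [← sum_add_distrib]
            apply sum_le_sum
            intro s _
            split_ifs with g
            · rw [← Nat.add_div_right _ (by omega : 0 < i + 1)]
              by_cases g' : s + i ≤ n
              · apply Nat.div_le_div_right; omega
              · have e1 : min (n - i - s) d + i + (i + 1) = i + (i + 1) := by omega
                rw [e1, Nat.add_div_right _ (by omega : 0 < i + 1), Nat.div_eq_of_lt (by omega)]
                rw [Nat.zero_add, Nat.le_div_iff_mul_le (by omega)]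
                omega
            · rw [Nat.add_zero]
              apply Nat.div_le_div_right; omega
          omega
        · have g1 : T.filter (fun u => u < n + 1) = T.filter (fun u => u < n) := by
            ext u
            simp only [mem_filter]
            constructor
            · rintro ⟨g1, g2⟩
              refine ⟨g1, ?_⟩
              have : u ≠ n := fun he => hn (he ▸ g1)
              omega
            · rintro ⟨g1, g2⟩
              exact ⟨g1, by omega⟩
          rw [g1]
          refine (ih n (by omega)).trans (sum_le_sum ?_)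
          intro s _
          apply Nat.div_le_div_right; omega
  have h1 := key (T.sup id + 1)
  have h0 : T.filter (fun u => u < T.sup id + 1) = T :=
    filter_true_of_mem (fun u hu => Nat.lt_succ_of_le (le_sup (f := id) hu))
  rw [h0] at h1
  refine h1.trans ?_
  rw [mul_comm, ← smul_eq_mul, ← sum_const]
  apply sum_le_sum
  intro s _
  apply Nat.div_le_div_right; omega

lemma inv_bound {d : ℕ} {F : Finset ℕ}
    (H : Inv σ i (fun u => (F.filter (fun s => u < s + d ∧ s ≤ u)).card) t A B cA cB) :
    cA ≤ cB + (d + i) / (i + 1) * F.card := by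
  obtain ⟨T, O, f, h, N, h1, h2, h3, h4, h5, h6, h7, h8, h9⟩ := H
  have := window_count T F i d h7
  omega

end Pool.Agent.P.MP_9bbf37_lc
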