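import Pool.Agent.P.MP_9bbf37_lc.Marking

namespace Pool.Agent.P.MP_9bbf37_lc

open Finset

variable {P : Type} [DecidableEq P]

/-- `N` blocks, block `n` consisting of `i + 1` requests to `π n` -/
def blockSeq (i : ℕ) (π : ℕ → P) (N : ℕ) : List P :=
  (List.range (N * (i + 1))).map (fun v => π (v / (i + 1)))

omit [DecidableEq P] in
lemma blockSeq_length (i : ℕ) (π : ℕ → P) (N : ℕ) : (blockSeq i π N).length = N * (i + 1) := by
  simp [blockSeq]

omit [DecidableEq P] in
lemma blockSeq_get {i : ℕ} (π : ℕ → P) {N v : ℕ} (h : v < N * (i + 1)) :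
    (blockSeq i π N)[v]? = some (π (v / (i + 1))) := by
  simp [blockSeq, h]

omit [DecidableEq P] in
lemma blockSeq_take (i : ℕ) (π : ℕ → P) {n N : ℕ} (h : n ≤ N) :
    (blockSeq i π N).take (n * (i + 1)) = blockSeq i π n := by
  unfold blockSeq
  rw [← List.map_take, List.take_range, min_eq_left (Nat.mul_le_mul_right _ h)]

omit [DecidableEq P] in
lemma blockSeq_congr (i : ℕ) {π π' : ℕ → P} {n : ℕ} (h : ∀ j < n, π j = π' j) :
    blockSeq i π n = blockSeq i π' n := by
  unfold blockSeq
  apply List.map_congr_left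
  intro v hv
  rw [List.mem_range] at hv
  apply h
  rwa [Nat.div_lt_iff_lt_mul (by omega)]

omit [DecidableEq P] in
lemma blockSeq_get' {i : ℕ} (π : ℕ → P) {N n j : ℕ} (hn : n < N) (hj : j ≤ i) :
    (blockSeq i π N)[n * (i + 1) + j]? = some (π n) := by
  have h1 : n * (i + 1) + j < N * (i + 1) := by
    have : (n + 1) * (i + 1) ≤ N * (i + 1) := Nat.mul_le_mul_right _ hn
    nlinarith
  rw [blockSeq_get π h1]
  congr 2
  rw [Nat.add_comm, Nat.add_mul_div_right _ _ (by omega), Nat.div_eq_of_lt (by omega)]
  simp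

lemma block_rest {k i : ℕ} (X : Alg P) (C : Finset P) (π : ℕ → P) {N n : ℕ} (hn : n < N)
    (j : ℕ) (hj : j ≤ i) :
    mem k X C (blockSeq i π N) (n * (i + 1) + 1 + j) =
        mem k X C (blockSeq i π N) (n * (i + 1) + 1) ∧
      flt k X C (blockSeq i π N) (n * (i + 1) + 1 + j) =
        flt k X C (blockSeq i π N) (n * (i + 1) + 1) := by
  induction j with
  | zero => exact ⟨rfl, rfl⟩
  | succ j ih =>
    obtain ⟨h1, h2⟩ := ih (by omega)
    have hg : (blockSeq i π N)[n * (i + 1) + 1 + j]? = some (π n) := by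
      have := blockSeq_get' (i := i) π hn (j := j + 1) hj
      rwa [show n * (i + 1) + (j + 1) = n * (i + 1) + 1 + j by ring] at this
    have hin : π n ∈ mem k X C (blockSeq i π N) (n * (i + 1) + 1 + j) := by
      rw [h1]
      exact req_mem_succ (blockSeq_get' (i := i) π hn (j := 0) (by omega))
    rw [show n * (i + 1) + 1 + (j + 1) = (n * (i + 1) + 1 + j) + 1 by ring]
    rw [mem_succ_hit hg hin, flt_hit hg hin]
    exact ⟨h1, h2⟩

lemma block_mem {k i : ℕ} (X : Alg P) (C : Finset P) (π : ℕ → P) {N n : ℕ} (hn : n < N) :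
    mem k X C (blockSeq i π N) ((n + 1) * (i + 1)) =
        mem k X C (blockSeq i π N) (n * (i + 1) + 1) := by
  rw [show (n + 1) * (i + 1) = n * (i + 1) + 1 + i by ring]
  exact (block_rest X C π hn i le_rfl).1

lemma block_flt {k i : ℕ} (X : Alg P) (C : Finset P) (π : ℕ → P) {N n : ℕ} (hn : n < N) :
    flt k X C (blockSeq i π N) ((n + 1) * (i + 1)) =
        flt k X C (blockSeq i π N) (n * (i + 1) + 1) := by
  rw [show (n + 1) * (i + 1) = n * (i + 1) + 1 + i by ring]
  exact (block_rest X C π hn i le_rfl).2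

lemma block_local {k i : ℕ} {A : Alg P} (hA : A ∈ Look P i) (C : Finset P) {π π' : ℕ → P}
    {N N' n : ℕ} (hn : n ≤ N) (hn' : n ≤ N') (h : ∀ j < n, π j = π' j) :
    mem k A C (blockSeq i π N) (n * (i + 1)) = mem k A C (blockSeq i π' N') (n * (i + 1)) := by
  cases n with
  | zero => simp [mem_zero]
  | succ n =>
    rw [block_mem A C π hn, block_mem A C π' hn']
    apply mem_local hA
    rw [show n * (i + 1) + 1 + i = (n + 1) * (i + 1) by ring, blockSeq_take i π hn,
      blockSeq_take i π' hn', blockSeq_congr i h]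

/-- the cruel adversary -/
lemma exists_cruel {k i : ℕ} (hk : 1 ≤ k) {A : Alg P} (hA : A ∈ Look P i) {C S : Finset P}
    (hC : C.card ≤ k) (hS : S.card = k + 1) (N : ℕ) :
    ∃ π : ℕ → P, (∀ n, π n ∈ S) ∧
      ∀ n < N, π n ∉ mem k A C (blockSeq i π N) (n * (i + 1)) := by
  induction N with
  | zero =>
    obtain ⟨p, hp⟩ : S.Nonempty := by rw [← card_pos]; omega
    exact ⟨fun _ => p, fun _ => hp, fun n hn => absurd hn (by omega)⟩
  | succ N ih =>
    obtain ⟨π, h1, h2⟩ := ih
    obtain ⟨p, hp1, hp2⟩ : ∃ p ∈ S, p ∉ mem k A C (blockSeq i π N) (N * (i + 1)) := by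
      by_contra hcon
      push Not at hcon
      have h3 := card_le_card (show S ⊆ _ from hcon)
      have h4 := card_mem_le (A := A) (σ := blockSeq i π N) hk hC (N * (i + 1))
      omega
    refine ⟨Function.update π N p, ?_, ?_⟩
    · intro n
      by_cases hn : n = N
      · rw [hn, Function.update_self]; exact hp1
      · rw [Function.update_of_ne hn]; exact h1 n
    · intro n hn
      have hloc : mem k A C (blockSeq i (Function.update π N p) (N + 1)) (n * (i + 1)) =
          mem k A C (blockSeq i π N) (n * (i + 1)) := by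
        apply block_local hA C (by omega) (by omega)
        intro j hj
        rw [Function.update_of_ne (by omega)]
      rw [hloc]
      by_cases hnN : n = N
      · rw [hnN, Function.update_self]; exact hp2
      · rw [Function.update_of_ne hnN]; exact h2 n (by omega)

lemma cruel_cost {k i : ℕ} {A : Alg P} {C : Finset P} {π : ℕ → P} {N : ℕ}
    (h : ∀ n < N, π n ∉ mem k A C (blockSeq i π N) (n * (i + 1))) :
    cost k A C (blockSeq i π N) = N := by
  rw [cost_eq_flt, blockSeq_length]
  have : ∀ n ≤ N, flt k A C (blockSeq i π N) (n * (i + 1)) = n := by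
    intro n
    induction n with
    | zero => intro _; simp [flt_zero]
    | succ n ih =>
      intro hn
      rw [block_flt A C π hn, flt_miss (blockSeq_get' (i := i) π hn (j := 0) (by omega))
        (h n hn)]
      simp only [Nat.add_zero]
      rw [ih (by omega)]
  exact this N le_rfl

/-- evict a page not requested among the next `h` requests, if there is one -/
noncomputable def winAlg (h : ℕ) (p0 : P) : Alg P where
  evict := fun _ σ t M => pickOut p0 M ((σ.take (t + 1 + h)).drop (t + 1)).toFinset
  evict_mem := fun _ _ _ _ hM => pickOut_mem p0 _ hM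

lemma winAlg_look (h : ℕ) (p0 : P) : winAlg h p0 ∈ Look P h := by
  intro C σ σ' t M hh
  show pickOut p0 M ((σ.take (t + 1 + h)).drop (t + 1)).toFinset =
    pickOut p0 M ((σ'.take (t + 1 + h)).drop (t + 1)).toFinset
  rw [hh]

omit [DecidableEq P] in
lemma mem_window {σ : List P} {t h : ℕ} {p : P} :
    p ∈ (σ.take (t + h)).drop t ↔ ∃ v, t ≤ v ∧ v < t + h ∧ σ[v]? = some p := by
  rw [List.mem_iff_getElem?]
  constructor
  · rintro ⟨j, hj⟩
    rw [List.getElem?_drop, List.getElem?_take] at hj
    split_ifs at hj with h1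
    exact ⟨t + j, by omega, h1, hj⟩
  · rintro ⟨v, h1, h2, h3⟩
    refine ⟨v - t, ?_⟩
    rw [List.getElem?_drop, List.getElem?_take, show t + (v - t) = v by omega, if_pos h2]
    exact h3

lemma mem_subset_S {k : ℕ} (X : Alg P) {C S : Finset P} (hCS : C ⊆ S) {σ : List P}
    (hσ : ∀ (v : ℕ) p, σ[v]? = some p → p ∈ S) (t : ℕ) : mem k X C σ t ⊆ S := by
  induction t with
  | zero => exact hCS
  | succ t ih =>
    cases h : σ[t]? with
    | none => rw [mem_succ_none h]; exact ih
    | some r =>
      by_cases hr : r ∈ mem k X C σ t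
      · rw [mem_succ_hit h hr]; exact ih
      · by_cases hc : (mem k X C σ t).card < k
        · rw [mem_succ_fill h hr hc]; exact insert_subset (hσ t r h) ih
        · rw [mem_succ_evict h hr hc]
          exact insert_subset (hσ t r h) ((erase_subset _ _).trans ih)

lemma win_inv {k i m : ℕ} (hk : 1 ≤ k) (hmk : m + 1 ≤ k) (p0 : P) {C S : Finset P}
    (hC : C.card ≤ k) (hCS : C ⊆ S) (hS : S.card = k + 1) {π : ℕ → P} (hπ : ∀ n, π n ∈ S)
    (N : ℕ) (n : ℕ) (hn : n ≤ N) :
    ∃ j ≤ m, (∀ g < j, n + g < N →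
        π (n + g) ∈ mem k (winAlg (m * (i + 1)) p0) C (blockSeq i π N) (n * (i + 1))) ∧
      (m + 1) * flt k (winAlg (m * (i + 1)) p0) C (blockSeq i π N) (n * (i + 1)) ≤
        n + j + (m + 1) *
          (mem k (winAlg (m * (i + 1)) p0) C (blockSeq i π N) (n * (i + 1))).card := by
  set B := winAlg (m * (i + 1)) p0 with hB
  set σ := blockSeq i π N with hσ
  have hσS : ∀ (v : ℕ) p, σ[v]? = some p → p ∈ S := by
    intro v p hv
    have hlt : v < N * (i + 1) := by
      by_contra hcon
      rw [List.getElem?_eq_none (by rw [hσ, blockSeq_length]; omega)] at hv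
      cases hv
    rw [hσ, blockSeq_get π hlt] at hv
    rw [← Option.some.inj hv]; exact hπ _
  induction n with
  | zero => exact ⟨0, by omega, fun g hg => absurd hg (by omega), by simp [flt_zero]⟩
  | succ n ih =>
    obtain ⟨j, hj, h1, h2⟩ := ih (by omega)
    have hg : σ[n * (i + 1)]? = some (π n) :=
      blockSeq_get' (i := i) π hn (j := 0) (by omega)
    rw [block_mem B C π hn, block_flt B C π hn]
    rw [← hσ]
    by_cases hr : π n ∈ mem k B C σ (n * (i + 1))
    · rw [mem_succ_hit hg hr, flt_hit hg hr]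
      refine ⟨j - 1, by omega, ?_, by omega⟩
      intro g hg1 hg2
      rw [show n + 1 + g = n + (g + 1) by ring]
      exact h1 (g + 1) (by omega) (by omega)
    · have hj0 : j = 0 := by
        by_contra hcon
        exact hr (h1 0 (by omega) (by omega))
      subst hj0
      by_cases hc : (mem k B C σ (n * (i + 1))).card < k
      · rw [mem_succ_fill hg hr hc, flt_miss hg hr, card_insert_of_notMem hr]
        refine ⟨0, by omega, fun g hg => absurd hg (by omega), ?_⟩
        rw [Nat.mul_succ (m + 1), Nat.mul_succ (m + 1)]; omega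
      · have hcard := card_evict hk hC hg hr hc
        have hle := card_mem_le (A := B) (σ := σ) hk hC (n * (i + 1))
        have hck : (mem k B C σ (n * (i + 1))).card = k := by omega
        rw [flt_miss hg hr, hcard]
        rw [hck] at h2
        refine ⟨m, le_rfl, ?_, by rw [Nat.mul_succ (m + 1)]; omega⟩
        intro g hg1 hg2
        rw [mem_succ_evict hg hr hc]
        set M := mem k B C σ (n * (i + 1)) with hM
        set W := ((σ.take (n * (i + 1) + 1 + m * (i + 1))).drop (n * (i + 1) + 1)).toFinset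
          with hW
        have hev : B.evict C σ (n * (i + 1)) M = pickOut p0 M W := rfl
        have hMS : M ⊆ S := mem_subset_S B hCS hσS _
        have hSeq : S = insert (π n) M := by
          symm
          apply eq_of_subset_of_card_le (insert_subset (hπ n) hMS)
          rw [card_insert_of_notMem hr]; omega
        have hex : ∃ p ∈ M, p ∉ W := by
          by_contra hcon
          push Not at hcon
          have hsub : M ⊆ (Finset.range m).image (fun g => π (n + 1 + g)) := by
            intro p hp
            have hpW := hcon p hp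
            rw [hW, List.mem_toFinset, mem_window] at hpW
            obtain ⟨v, hv1, hv2, hv3⟩ := hpW
            have hlt : v < N * (i + 1) := by
              by_contra hcon'
              rw [List.getElem?_eq_none (by rw [hσ, blockSeq_length]; omega)] at hv3
              cases hv3
            rw [hσ, blockSeq_get π hlt] at hv3
            have hpv := Option.some.inj hv3
            have hlo : n ≤ v / (i + 1) := by
              rw [Nat.le_div_iff_mul_le (by omega)]; omega
            have hhi : v / (i + 1) < n + m + 1 := by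
              rw [Nat.div_lt_iff_lt_mul (by omega)]; nlinarith
            have hne : v / (i + 1) ≠ n := by
              intro he
              rw [he] at hpv
              exact hr (hpv ▸ hp)
            rw [mem_image]
            refine ⟨v / (i + 1) - (n + 1), by rw [mem_range]; omega, ?_⟩
            rw [show n + 1 + (v / (i + 1) - (n + 1)) = v / (i + 1) by omega]
            exact hpv
          have h3 := card_le_card hsub
          have h4 : ((Finset.range m).image (fun g => π (n + 1 + g))).card ≤ m :=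
            card_image_le.trans (by simp)
          omega
        have hout := pickOut_notMem p0 hex
        have hinW : π (n + 1 + g) ∈ W := by
          rw [hW, List.mem_toFinset, mem_window]
          refine ⟨(n + 1 + g) * (i + 1), by nlinarith, by nlinarith, ?_⟩
          exact blockSeq_get' (i := i) π hg2 (j := 0) (by omega)
        have hmem : π (n + 1 + g) ∈ insert (π n) M := hSeq ▸ hπ _
        rcases mem_insert.mp hmem with h3 | h3
        · rw [h3]; exact mem_insert_self _ _
        · apply mem_insert_of_mem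
          rw [mem_erase, hev]
          exact ⟨fun he => hout (he ▸ hinW), h3⟩

lemma win_cost {k i m : ℕ} (hk : 1 ≤ k) (hmk : m + 1 ≤ k) (p0 : P) {C S : Finset P}
    (hC : C.card ≤ k) (hCS : C ⊆ S) (hS : S.card = k + 1) {π : ℕ → P} (hπ : ∀ n, π n ∈ S)
    (N : ℕ) :
    (m + 1) * cost k (winAlg (m * (i + 1)) p0) C (blockSeq i π N) ≤ N + m + (m + 1) * k := by
  obtain ⟨j, hj, -, h2⟩ := win_inv (i := i) hk hmk p0 hC hCS hS hπ N N le_rfl
  rw [cost_eq_flt, blockSeq_length]
  have h3 := card_mem_le (A := winAlg (m * (i + 1)) p0) (σ := blockSeq i π N) hk hC (N * (i + 1))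
  have h4 := Nat.mul_le_mul_left (m + 1) h3
  omega

lemma lower_ratio {k i m : ℕ} (hk : 1 ≤ k) (hmk : m + 1 ≤ k) (p0 : P)
    (hP : ∃ S : Finset P, S.card = k + 1) {I : Set (Finset P)} (hI : I.Nonempty)
    (hIk : ∀ C ∈ I, C.card ≤ k) {A : Alg P} (hA : A ∈ Look P i) :
    (((m + 1 : ℕ) : ℝ) : EReal) ≤ ratio k I A (winAlg (m * (i + 1)) p0) := by
  unfold ratio
  apply le_sInf
  rintro _ ⟨c, ⟨b, hb⟩, rfl⟩
  rw [EReal.coe_le_coe_iff]
  obtain ⟨C, hCI⟩ := hI
  have hC := hIk C hCI
  obtain ⟨S0, hS0⟩ := hP
  obtain ⟨S, hCS, -, hS⟩ : ∃ S : Finset P, C ⊆ S ∧ S ⊆ C ∪ S0 ∧ S.card = k + 1 := by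
    apply exists_subsuperset_card_eq subset_union_left (by omega)
    rw [← hS0]; exact card_le_card subset_union_right
  by_contra hcon
  push Not at hcon
  have key : ∀ N : ℕ, ∃ x : ℝ, 0 ≤ x ∧ (m + 1) * x ≤ N + m + (m + 1) * k ∧ N ≤ c * x + b := by
    intro N
    obtain ⟨π, h1, h2⟩ := exists_cruel hk hA hC hS N
    have h3 := hb C hCI (blockSeq i π N)
    rw [cruel_cost h2] at h3
    have h4 := win_cost (i := i) hk hmk p0 hC hCS hS h1 N
    refine ⟨_, Nat.cast_nonneg _, ?_, h3⟩
    exact_mod_cast h4
  push_cast at hcon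
  have hm0 : (0 : ℝ) ≤ m := Nat.cast_nonneg _
  have hk0 : (0 : ℝ) ≤ k := Nat.cast_nonneg _
  obtain ⟨N, hN⟩ := exists_nat_gt
    ((|c| * (m + (m + 1) * k) + (m + 1) * |b|) / (m + 1 - max c 0) + |b|)
  obtain ⟨x, hx0, hx1, hx2⟩ := key N
  have hpos : 0 < (m + 1 : ℝ) - max c 0 := by
    rcases le_total c 0 with h | h
    · rw [max_eq_right h]; linarith
    · rw [max_eq_left h]; linarith
  have hb1 := le_abs_self b
  have hb0 := abs_nonneg b
  have hq : 0 ≤ (|c| * (m + (m + 1) * k) + (m + 1) * |b|) / (m + 1 - max c 0) := by positivity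
  have hN' : (|c| * (m + (m + 1) * k) + (m + 1) * |b|) / (m + 1 - max c 0) < N := by linarith
  rw [div_lt_iff₀ hpos] at hN'
  rcases le_total c 0 with h | h
  · have : c * x ≤ 0 := mul_nonpos_of_nonpos_of_nonneg h hx0
    linarith
  · rw [max_eq_left h, abs_of_nonneg h] at hN'
    have h5 : c * ((m + 1) * x) ≤ c * (N + m + (m + 1) * k) := mul_le_mul_of_nonneg_left hx1 h
    have h6 : (m + 1 : ℝ) * N ≤ (m + 1) * (c * x + b) :=
      mul_le_mul_of_nonneg_left hx2 (by linarith)
    have h7 : (m + 1 : ℝ) * b ≤ (m + 1) * |b| := mul_le_mul_of_nonneg_left hb1 (by linarith)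
    nlinarith

end Pool.Agent.P.MP_9bbf37_lc
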