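import Pool.Agent.P.MP_9bbf37_lc.Basic

namespace Pool.Agent.P.MP_9bbf37_lc

open Finset

variable {P : Type} [DecidableEq P]

/-- marked pages after `t` requests -/
def marked (k : ℕ) (σ : List P) : ℕ → Finset P
  | 0 => ∅
  | t + 1 =>
    match σ[t]? with
    | none => marked k σ t
    | some r =>
      if r ∈ marked k σ t then marked k σ t
      else if (marked k σ t).card < k then insert r (marked k σ t) else {r}

lemma marked_local (k : ℕ) {σ σ' : List P} (t : ℕ) (h : σ.take t = σ'.take t) :
    marked k σ t = marked k σ' t := by
  induction t with
  | zero => rfl
  | succ t ih =>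
    have ih' := ih (take_eq_of_take_eq h (by omega))
    have hg : σ[t]? = σ'[t]? := getElem?_eq_of_take_eq h (by omega)
    rw [marked, marked, hg, ih']

open Classical in
/-- pick an element of `M` outside `W` if there is one, otherwise any element of `M` -/
noncomputable def pickOut (p0 : P) (M W : Finset P) : P :=
  if h : ∃ p ∈ M, p ∉ W then h.choose else if h' : M.Nonempty then h'.choose else p0

lemma pickOut_mem (p0 : P) {M : Finset P} (W : Finset P) (hM : M.Nonempty) :
    pickOut p0 M W ∈ M := by
  unfold pickOut
  split_ifs with h
  · exact h.choose_spec.1
  · exact hM.choose_spec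

lemma pickOut_notMem (p0 : P) {M W : Finset P} (h : ∃ p ∈ M, p ∉ W) : pickOut p0 M W ∉ W := by
  unfold pickOut
  rw [dif_pos h]
  exact h.choose_spec.2

/-- a marking algorithm -/
noncomputable def markAlg (k : ℕ) (p0 : P) : Alg P where
  evict := fun _ σ t M => pickOut p0 M (marked k σ (t + 1))
  evict_mem := fun _ _ _ _ hM => pickOut_mem p0 _ hM

lemma markAlg_look (k : ℕ) (p0 : P) (i : ℕ) : markAlg k p0 ∈ Look P i := by
  intro C σ σ' t M h
  show pickOut p0 M (marked k σ (t + 1)) = pickOut p0 M (marked k σ' (t + 1))
  rw [marked_local k (t + 1) (take_eq_of_take_eq h (by omega))]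

lemma card_marked_le {k : ℕ} (hk : 1 ≤ k) (σ : List P) (t : ℕ) : (marked k σ t).card ≤ k := by
  induction t with
  | zero => simp [marked]
  | succ t ih =>
    rw [marked]
    cases h : σ[t]? with
    | none => exact ih
    | some r =>
      dsimp only
      split_ifs with h1 h2
      · exact ih
      · rw [card_insert_of_notMem h1]; omega
      · simpa using hk

lemma marked_subset {k : ℕ} (hk : 1 ≤ k) (p0 : P) {C : Finset P} (hC : C.card ≤ k)
    (σ : List P) (t : ℕ) : marked k σ t ⊆ mem k (markAlg k p0) C σ t := by
  induction t with
  | zero => simp [marked]
  | succ t ih =>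
    cases h : σ[t]? with
    | none => rw [mem_succ_none h, marked]; simp only [h]; exact ih
    | some r =>
      have hsub : marked k σ (t + 1) ⊆ insert r (marked k σ t) := by
        rw [marked]; simp only [h]
        split_ifs with h1 h2
        · exact subset_insert _ _
        · exact Subset.refl _
        · intro x hx; rw [mem_singleton] at hx; rw [hx]; exact mem_insert_self _ _
      have hrm : r ∈ marked k σ (t + 1) := by
        rw [marked]; simp only [h]
        split_ifs with h1 h2
        · exact h1
        · exact mem_insert_self _ _
        · exact mem_singleton_self _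
      by_cases hr : r ∈ mem k (markAlg k p0) C σ t
      · rw [mem_succ_hit h hr]
        exact hsub.trans (insert_subset hr ih)
      · by_cases hc : (mem k (markAlg k p0) C σ t).card < k
        · rw [mem_succ_fill h hr hc]
          exact hsub.trans (insert_subset_insert _ ih)
        · rw [mem_succ_evict h hr hc]
          have hex : ∃ p ∈ mem k (markAlg k p0) C σ t, p ∉ marked k σ (t + 1) := by
            by_contra hcon
            push Not at hcon
            have h1 : insert r (mem k (markAlg k p0) C σ t) ⊆ marked k σ (t + 1) :=
              insert_subset hrm hcon
            have h2 := card_le_card h1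
            rw [card_insert_of_notMem hr] at h2
            have h3 := card_marked_le hk σ (t + 1)
            omega
          have hout := pickOut_notMem p0 hex
          intro x hx
          rcases mem_insert.mp (hsub hx) with h1 | h1
          · rw [h1]; exact mem_insert_self _ _
          · apply mem_insert_of_mem
            rw [mem_erase]
            refine ⟨?_, ih h1⟩
            intro hxe
            apply hout
            have : (markAlg k p0).evict C σ t (mem k (markAlg k p0) C σ t) =
              pickOut p0 (mem k (markAlg k p0) C σ t) (marked k σ (t + 1)) := rfl
            rw [← this, ← hxe]; exact hx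

lemma markAlg_inv {k : ℕ} (hk : 1 ≤ k) (p0 : P) {C : Finset P} (hC : C.card ≤ k)
    (B : Alg P) (σ : List P) (t : ℕ) :
    flt k (markAlg k p0) C σ t + (if marked k σ t ⊆ mem k B C σ t then 0 else k) ≤
      k * flt k B C σ t + (marked k σ t).card := by
  induction t with
  | zero => simp [flt_zero, marked]
  | succ t ih =>
    cases h : σ[t]? with
    | none =>
      rw [flt_none h, flt_none h, mem_succ_none h, marked]; simp only [h]; exact ih
    | some r =>
      have hAle : flt k (markAlg k p0) C σ (t + 1) ≤ flt k (markAlg k p0) C σ t + 1 := by
        by_cases hr : r ∈ mem k (markAlg k p0) C σ t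
        · rw [flt_hit h hr]; omega
        · rw [flt_miss h hr]
      by_cases h1 : r ∈ marked k σ t
      · have hm : marked k σ (t + 1) = marked k σ t := by
          rw [marked]; simp only [h, if_pos h1]
        have hA : flt k (markAlg k p0) C σ (t + 1) = flt k (markAlg k p0) C σ t :=
          flt_hit h (marked_subset hk p0 hC σ t h1)
        rw [hm, hA]
        by_cases hB : r ∈ mem k B C σ t
        · rw [mem_succ_hit h hB, flt_hit h hB]; exact ih
        · rw [flt_miss h hB, Nat.mul_succ]
          split_ifs at ih ⊢ <;> omega
      · by_cases h2 : (marked k σ t).card < k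
        · have hm : marked k σ (t + 1) = insert r (marked k σ t) := by
            rw [marked]; simp only [h, if_neg h1, if_pos h2]
          rw [hm, card_insert_of_notMem h1]
          by_cases hB : r ∈ mem k B C σ t
          · rw [mem_succ_hit h hB, flt_hit h hB]
            have : (insert r (marked k σ t) ⊆ mem k B C σ t) ↔
                (marked k σ t ⊆ mem k B C σ t) := by
              rw [insert_subset_iff]; tauto
            simp only [this]
            omega
          · rw [flt_miss h hB, Nat.mul_succ]
            split_ifs at ih ⊢ <;> omega
        · have hm : marked k σ (t + 1) = {r} := by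
            rw [marked]; simp only [h, if_neg h1, if_neg h2]
          have hsub : ({r} : Finset P) ⊆ mem k B C σ (t + 1) := by
            rw [singleton_subset_iff]; exact req_mem_succ h
          rw [hm, if_pos hsub, card_singleton]
          have hck := card_marked_le hk σ t
          by_cases hB : r ∈ mem k B C σ t
          · rw [flt_hit h hB]
            have hns : ¬ marked k σ t ⊆ mem k B C σ t := by
              intro hs
              have h3 : insert r (marked k σ t) ⊆ mem k B C σ t := insert_subset hB hs
              have h4 := card_le_card h3
              rw [card_insert_of_notMem h1] at h4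
              have h5 := card_mem_le (A := B) (σ := σ) hk hC t
              omega
            rw [if_neg hns] at ih
            omega
          · rw [flt_miss h hB, Nat.mul_succ]
            split_ifs at ih <;> omega

lemma markAlg_cost {k : ℕ} (hk : 1 ≤ k) (p0 : P) {C : Finset P} (hC : C.card ≤ k)
    (B : Alg P) (σ : List P) :
    cost k (markAlg k p0) C σ ≤ k * cost k B C σ + k := by
  rw [cost_eq_flt, cost_eq_flt]
  have h1 := markAlg_inv hk p0 hC B σ σ.length
  have h2 := card_marked_le hk σ σ.length
  omega

end Pool.Agent.P.MP_9bbf37_lc
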