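import Pool.Agent.P.MP_9bbf37_lc.Inv
import Pool.Agent.P.MP_9bbf37_lc.Lower

namespace Pool.Agent.P.MP_9bbf37_lc

open Finset

variable {P : Type} [DecidableEq P]

open Classical in
/-- an element of `M` maximising `g` -/
noncomputable def pickMax (p0 : P) (M : Finset P) (g : P → ℕ) : P :=
  if h : M.Nonempty then (M.exists_max_image g h).choose else p0

omit [DecidableEq P] in
lemma pickMax_spec (p0 : P) {M : Finset P} (g : P → ℕ) (hM : M.Nonempty) :
    pickMax p0 M g ∈ M ∧ ∀ z ∈ M, g z ≤ g (pickMax p0 M g) := by
  unfold pickMax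
  rw [dif_pos hM]
  exact (M.exists_max_image g hM).choose_spec

/-- pages that `B` may hold at time `t`, judging from its memory at time `s` -/
def known (k : ℕ) (B : Alg P) (C : Finset P) (σ : List P) (s t : ℕ) : Finset P :=
  mem k B C σ s ∪ ((σ.take t).drop s).toFinset

/-- the eviction priority -/
def prio (L : List P) (K : Finset P) (p : P) : ℕ := 2 * L.idxOf p + (if p ∈ K then 0 else 1)

/-- furthest in the visible future, ties broken towards pages that `B` surely lacks -/
noncomputable def starAlg (k i d : ℕ) (B : Alg P) (p0 : P) : Alg P where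
  evict := fun C σ t M => pickMax p0 M
    (prio ((σ.take (t + 1 + i)).drop (t + 1))
      (known k B C (σ.take (t + 1 + i)) (t + 1 - d) (t + 1)))
  evict_mem := fun _ _ _ _ hM => (pickMax_spec p0 _ hM).1

lemma starAlg_look (k i d : ℕ) (B : Alg P) (p0 : P) : starAlg k i d B p0 ∈ Look P i := by
  intro C σ σ' t M hh
  show pickMax p0 M (prio ((σ.take (t + 1 + i)).drop (t + 1))
      (known k B C (σ.take (t + 1 + i)) (t + 1 - d) (t + 1))) =
    pickMax p0 M (prio ((σ'.take (t + 1 + i)).drop (t + 1))
      (known k B C (σ'.take (t + 1 + i)) (t + 1 - d) (t + 1)))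
  rw [hh]

lemma known_take {k i d : ℕ} {B : Alg P} (hB : B ∈ Look P (d + i)) (C : Finset P) (σ : List P)
    (t : ℕ) :
    known k B C (σ.take (t + 1 + i)) (t + 1 - d) (t + 1) = known k B C σ (t + 1 - d) (t + 1) := by
  unfold known
  rw [List.take_take, min_eq_left (by omega)]
  congr 1
  by_cases h : d ≤ t + 1
  · apply mem_local hB
    rw [List.take_take, min_eq_left (by omega)]
  · rw [show t + 1 - d = 0 by omega]; rfl

lemma known_succ {k : ℕ} {B : Alg P} {C : Finset P} {σ : List P} {s t : ℕ} {r : P}
    (hst : s ≤ t) (hr : σ[t]? = some r) :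
    known k B C σ s (t + 1) = insert r (known k B C σ s t) := by
  ext p
  unfold known
  simp only [mem_union, List.mem_toFinset, mem_insert]
  have e1 : t + 1 = s + (t + 1 - s) := by omega
  have e2 : t = s + (t - s) := by omega
  have h1 : p ∈ (σ.take (t + 1)).drop s ↔ ∃ v, s ≤ v ∧ v < t + 1 ∧ σ[v]? = some p := by
    conv_lhs => rw [e1]
    rw [mem_window, ← e1]
  have h2 : p ∈ (σ.take t).drop s ↔ ∃ v, s ≤ v ∧ v < t ∧ σ[v]? = some p := by
    conv_lhs => rw [e2]
    rw [mem_window, ← e2]
  rw [h1, h2]
  constructor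
  · rintro (g | ⟨v, g1, g2, g3⟩)
    · right; left; exact g
    · by_cases hv : v = t
      · left; rw [hv, hr] at g3; exact (Option.some.inj g3).symm
      · right; right; exact ⟨v, g1, by omega, g3⟩
  · rintro (g | g | ⟨v, g1, g2, g3⟩)
    · right; exact ⟨t, hst, by omega, g ▸ hr⟩
    · left; exact g
    · right; exact ⟨v, g1, by omega, g3⟩

lemma known_spec {k : ℕ} (B : Alg P) (C : Finset P) (σ : List P) (s n : ℕ)
    (hn : s + n ≤ σ.length) :
    mem k B C σ (s + n) ⊆ known k B C σ s (s + n) ∧
      (known k B C σ s (s + n) \ mem k B C σ (s + n)).card + flt k B C σ s ≤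
        flt k B C σ (s + n) := by
  induction n with
  | zero =>
    have : known k B C σ s s = mem k B C σ s := by
      unfold known
      rw [List.drop_eq_nil_of_le (by simp)]; simp
    simp [this]
  | succ n ih =>
    obtain ⟨h1, h2⟩ := ih (by omega)
    have hlt : s + n < σ.length := by omega
    have hr : σ[s + n]? = some σ[s + n] := List.getElem?_eq_getElem hlt
    set r := σ[s + n]
    rw [← Nat.add_assoc, known_succ (by omega) hr]
    by_cases hB : r ∈ mem k B C σ (s + n)
    · rw [mem_succ_hit hr hB, flt_hit hr hB, insert_eq_of_mem (h1 hB)]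
      exact ⟨h1, h2⟩
    · rw [flt_miss hr hB]
      by_cases hc : (mem k B C σ (s + n)).card < k
      · rw [mem_succ_fill hr hB hc]
        refine ⟨insert_subset_insert _ h1, ?_⟩
        have : insert r (known k B C σ s (s + n)) \ insert r (mem k B C σ (s + n)) ⊆
            known k B C σ s (s + n) \ mem k B C σ (s + n) := by
          intro p hp
          simp only [mem_sdiff, mem_insert, not_or] at hp ⊢
          tauto
        have := card_le_card this
        omega
      · rw [mem_succ_evict hr hB hc]
        refine ⟨insert_subset_insert _ ((erase_subset _ _).trans h1), ?_⟩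
        set e := B.evict C σ (s + n) (mem k B C σ (s + n))
        have : insert r (known k B C σ s (s + n)) \ insert r ((mem k B C σ (s + n)).erase e) ⊆
            insert e (known k B C σ s (s + n) \ mem k B C σ (s + n)) := by
          intro p hp
          simp only [mem_sdiff, mem_insert, not_or, mem_erase, not_and, ne_eq] at hp ⊢
          tauto
        have := (card_le_card this).trans (card_insert_le _ _)
        omega

lemma known_card {k d : ℕ} (B : Alg P) (C : Finset P) (σ : List P) {t : ℕ}
    (ht : t < σ.length) :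
    mem k B C σ (t + 1) ⊆ known k B C σ (t + 1 - d) (t + 1) ∧
      (known k B C σ (t + 1 - d) (t + 1) \ mem k B C σ (t + 1)).card ≤
        ((fset k B C σ σ.length).filter (fun s => t < s + d ∧ s ≤ t)).card := by
  obtain ⟨h1, h2⟩ := known_spec (k := k) B C σ (t + 1 - d) (t + 1 - (t + 1 - d)) (by omega)
  rw [show t + 1 - d + (t + 1 - (t + 1 - d)) = t + 1 by omega] at h1 h2
  refine ⟨h1, ?_⟩
  have h3 : fset k B C σ (t + 1) ⊆ fset k B C σ (t + 1 - d) ∪
      (fset k B C σ σ.length).filter (fun s => t < s + d ∧ s ≤ t) := by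
    intro s hs
    simp only [mem_union, mem_filter, mem_fset] at hs ⊢
    by_cases g : s < t + 1 - d
    · left; exact ⟨g, hs.2⟩
    · right; exact ⟨⟨by omega, hs.2⟩, by omega, by omega⟩
  have h4 := (card_le_card h3).trans (card_union_le _ _)
  unfold flt at h2
  omega

lemma idx_spec {σ : List P} {t i : ℕ} {z : P}
    (hz : ((σ.take (t + i)).drop t).idxOf z < ((σ.take (t + i)).drop t).length) :
    ((σ.take (t + i)).drop t).idxOf z < i ∧
      σ[t + ((σ.take (t + i)).drop t).idxOf z]? = some z := by
  set L := (σ.take (t + i)).drop t with hL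
  have hlen : L.length ≤ i := by
    rw [hL, List.length_drop, List.length_take]; omega
  have h1 : L[L.idxOf z]? = some z := by
    rw [List.getElem?_eq_getElem hz, List.getElem_idxOf]
  refine ⟨by omega, ?_⟩
  rw [hL, List.getElem?_drop, List.getElem?_take, if_pos (by rw [← hL]; omega)] at h1
  exact h1

lemma idx_le {σ : List P} {t i v : ℕ} {a : P} (h1 : t ≤ v) (h2 : v < t + i)
    (h3 : σ[v]? = some a) : t + ((σ.take (t + i)).drop t).idxOf a ≤ v := by
  set L := (σ.take (t + i)).drop t with hL
  have h4 : L[v - t]? = some a := by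
    rw [hL, List.getElem?_drop, List.getElem?_take, show t + (v - t) = v by omega, if_pos h2]
    exact h3
  have h5 : L.idxOf a ≤ v - t := by
    have h6 : a ∈ L := List.mem_of_getElem? h4
    have h7 : a ∈ L.take (v - t + 1) := by
      apply List.mem_of_getElem? (i := v - t)
      rw [List.getElem?_take_of_lt (by omega)]; exact h4
    have := (List.mem_take_iff_idxOf_lt h6).mp h7
    omega
  omega

lemma prio_P1 {σ : List P} {t i : ℕ} {K : Finset P} {z a : P} (hza : z ≠ a)
    (h : prio ((σ.take (t + i)).drop t) K z ≤ prio ((σ.take (t + i)).drop t) K a)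
    (hv : Vis σ i t a) : Bef σ i t z a := by
  set L := (σ.take (t + i)).drop t with hL
  have haL : a ∈ L := mem_window.mpr hv
  have ha : L.idxOf a < L.length := List.idxOf_lt_length_of_mem haL
  have hle : L.idxOf z ≤ L.idxOf a := by
    unfold prio at h
    split_ifs at h <;> omega
  have hz : L.idxOf z < L.length := by omega
  obtain ⟨g1, g2⟩ := idx_spec hz
  obtain ⟨g3, g4⟩ := idx_spec ha
  rw [← hL] at g1 g2 g3 g4
  have hne : L.idxOf z ≠ L.idxOf a := by
    intro he
    rw [he, g4] at g2
    exact hza (Option.some.inj g2).symm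
  refine ⟨t + L.idxOf z, by omega, by omega, g2, ?_⟩
  intro v' h5 h6 h7
  have := idx_le (i := i) h5 (by omega) h7
  rw [← hL] at this
  omega

lemma prio_P2 {σ : List P} {t i : ℕ} {K : Finset P} {z a : P} (ha : a ∈ K) (hz : z ∉ K)
    (h : prio ((σ.take (t + i)).drop t) K z ≤ prio ((σ.take (t + i)).drop t) K a) :
    Vis σ i t z := by
  set L := (σ.take (t + i)).drop t with hL
  unfold prio at h
  rw [if_pos ha, if_neg hz] at h
  have h1 : L.idxOf a ≤ L.length := List.idxOf_le_length
  have h2 : L.idxOf z < L.length := by omega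
  exact mem_window.mp (List.idxOf_lt_length_iff.mp h2)

lemma star_inv {k i d : ℕ} (hk : 1 ≤ k) {B : Alg P} (hB : B ∈ Look P (d + i)) (p0 : P)
    {C : Finset P} (hC : C.card ≤ k) (σ : List P) (t : ℕ) (ht : t ≤ σ.length) :
    Inv σ i (fun u => ((fset k B C σ σ.length).filter (fun s => u < s + d ∧ s ≤ u)).card) t
      (mem k (starAlg k i d B p0) C σ t) (mem k B C σ t)
      (flt k (starAlg k i d B p0) C σ t) (flt k B C σ t) := by
  set A := starAlg k i d B p0 with hA
  induction t with
  | zero => exact inv_zero p0 C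
  | succ t ih =>
    have H := ih (by omega)
    have hlt : t < σ.length := by omega
    have hr : σ[t]? = some σ[t] := List.getElem?_eq_getElem hlt
    set r := σ[t]
    by_cases hfill : r ∉ mem k A C σ t ∧ (mem k A C σ t).card < k
    · have he : mem k A C σ t = mem k B C σ t := by
        rcases full_or_eq (A := A) (B := B) (σ := σ) hk hC t with g | g
        · omega
        · exact g
      rw [mem_succ_fill hr hfill.1 hfill.2, flt_miss hr hfill.1,
        mem_succ_fill hr (he ▸ hfill.1) (he ▸ hfill.2), flt_miss hr (he ▸ hfill.1), ← he]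
      rw [← he] at H
      exact inv_fill H
    · have H2 : Inv σ i
          (fun u => ((fset k B C σ σ.length).filter (fun s => u < s + d ∧ s ≤ u)).card) t
          (mem k A C σ t) (mem k B C σ (t + 1)) (flt k A C σ t) (flt k B C σ (t + 1)) := by
        by_cases hrB : r ∈ mem k B C σ t
        · rw [mem_succ_hit hr hrB, flt_hit hr hrB]; exact H
        · have hc : ¬ (mem k B C σ t).card < k := by
            rcases full_or_eq (A := A) (B := B) (σ := σ) hk hC t with g | g
            · omega
            · rw [g] at hfill; tauto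
          rw [mem_succ_evict hr hrB hc, flt_miss hr hrB]
          exact inv_B H
      have hrB' : r ∈ mem k B C σ (t + 1) := req_mem_succ hr
      by_cases hrA : r ∈ mem k A C σ t
      · rw [mem_succ_hit hr hrA, flt_hit hr hrA]
        exact inv_hit H2 hr hrB'
      · have hc : ¬ (mem k A C σ t).card < k := by tauto
        have hAk : (mem k A C σ t).card = k := by
          have := card_mem_le (A := A) (σ := σ) hk hC t
          omega
        have hBk : (mem k B C σ (t + 1)).card = k := by
          rcases full_or_eq (A := A) (B := B) (σ := σ) hk hC (t + 1) with g | g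
          · exact g.2
          · rw [← g]; exact card_evict hk hC hr hrA hc
        have hne : (mem k A C σ t).Nonempty := by rw [← card_pos]; omega
        have hev : A.evict C σ t (mem k A C σ t) = pickMax p0 (mem k A C σ t)
            (prio ((σ.take (t + 1 + i)).drop (t + 1)) (known k B C σ (t + 1 - d) (t + 1))) := by
          rw [← known_take hB]; rfl
        obtain ⟨g1, g2⟩ := pickMax_spec p0
          (prio ((σ.take (t + 1 + i)).drop (t + 1)) (known k B C σ (t + 1 - d) (t + 1))) hne
        rw [← hev] at g1 g2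
        obtain ⟨g3, g4⟩ := known_card (k := k) (d := d) B C σ hlt
        rw [mem_succ_evict hr hrA hc, flt_miss hr hrA]
        exact inv_A H2 hr hrB' hrA g1 (by omega)
          (fun z hz hza hv => prio_P1 hza (g2 z hz) hv)
          (fun ha z hz hzK => prio_P2 ha hzK (g2 z hz)) g3 g4

lemma star_cost {k i d : ℕ} (hk : 1 ≤ k) {B : Alg P} (hB : B ∈ Look P (d + i)) (p0 : P)
    {C : Finset P} (hC : C.card ≤ k) (σ : List P) :
    cost k (starAlg k i d B p0) C σ ≤ ((d + i) / (i + 1) + 1) * cost k B C σ := by
  have h := inv_bound (star_inv hk hB p0 hC σ σ.length le_rfl)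
  rw [cost_eq_flt, cost_eq_flt, add_mul, one_mul, add_comm]
  exact h

lemma ratio_le {k : ℕ} {I : Set (Finset P)} {A B : Alg P} (c b : ℕ)
    (h : ∀ C ∈ I, ∀ σ, cost k A C σ ≤ c * cost k B C σ + b) :
    ratio k I A B ≤ ((c : ℝ) : EReal) := by
  unfold ratio
  apply sInf_le
  refine ⟨c, ⟨b, fun C hC σ => ?_⟩, rfl⟩
  exact_mod_cast h C hC σ

theorem compRatio_eq (k : ℕ) (hk : 1 ≤ k) (hP : ∃ S : Finset P, S.card = k + 1)
    (I : Set (Finset P)) (hI : I.Nonempty) (hIk : ∀ C ∈ I, C.card ≤ k) (i l : ℕ) :
    compRatio k I (Look P i) (Look P l) = ((min k (l / (i + 1) + 1) : ℕ) : EReal) := by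
  obtain ⟨p0, -⟩ : ∃ p0 : P, True := by
    obtain ⟨S, hS⟩ := hP
    obtain ⟨p, -⟩ : S.Nonempty := by rw [← card_pos]; omega
    exact ⟨p, trivial⟩
  have hcast : ∀ n : ℕ, (((n : ℝ) : EReal)) = (n : EReal) := fun n => rfl
  unfold compRatio
  apply le_antisymm
  · refine iSup₂_le fun B hB => ?_
    rcases le_total k (l / (i + 1) + 1) with h | h
    · rw [min_eq_left h, ← hcast]
      exact iInf₂_le_of_le (markAlg k p0) (markAlg_look k p0 i)
        (ratio_le k k fun C hC σ => markAlg_cost hk p0 (hIk C hC) B σ)
    · rw [min_eq_right h, ← hcast]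
      have hB' : B ∈ Look P ((l - i) + i) := look_mono (by omega) hB
      refine iInf₂_le_of_le (starAlg k i (l - i) B p0) (starAlg_look k i (l - i) B p0)
        (ratio_le _ 0 fun C hC σ => ?_)
      have h1 := star_cost hk hB' p0 (hIk C hC) σ
      have h2 : (l - i + i) / (i + 1) = l / (i + 1) := by
        by_cases g : i ≤ l
        · rw [Nat.sub_add_cancel g]
        · rw [Nat.div_eq_of_lt (by omega), Nat.div_eq_of_lt (by omega)]
      rw [h2] at h1
      exact h1
  · obtain ⟨m, hm⟩ : ∃ m, min k (l / (i + 1) + 1) = m + 1 :=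
      ⟨min k (l / (i + 1) + 1) - 1, by generalize l / (i + 1) = q; omega⟩
    have hml : m * (i + 1) ≤ l := by
      rw [← Nat.le_div_iff_mul_le (by omega)]
      generalize l / (i + 1) = q at hm ⊢; omega
    refine le_iSup₂_of_le (winAlg (m * (i + 1)) p0) (look_mono hml (winAlg_look _ p0)) ?_
    refine le_iInf₂ fun A hA => ?_
    rw [hm, ← hcast]
    exact lower_ratio hk (by omega) p0 hP hI hIk hA

end Pool.Agent.P.MP_9bbf37_lc
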